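import Pool.Agent.Lib.H77D4.Def
import Pool.Agent.Lib.LD77.A
import Pool.Agent.Lib.H40T.R

/-!
# H77D4, file C: covers by disjoint cycles of length at least `4` and reductions (MP_33911d, form D4)
-/

set_option autoImplicit false

namespace H77D4

open Finset H98M LD H85TF H75U LD77

variable {V : Type*} [DecidableEq V]

theorem erase_aux {E : Finset (Sym2 V)} {Y : Finset V} {x y : V} {P Q C D : Finset V}
    (hT : TCY E Y) (hs : Sep E Y x y P Q) (hQ : Q ⊆ C ∪ D) (hCD : Disjoint C D) (hx : x ∈ C) (hy : y ∈ D)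
    (hno : ∀ a ∈ C, ∀ b ∈ D, s(a, b) ∉ E.erase s(x, y)) : False := by
  have hne : ∀ {a b : V}, a ∈ Q → s(a, b) ≠ s(x, y) := by
    intro a b ha h
    rw [Sym2.eq_iff] at h
    rcases h with h | h
    · exact hs.xQ (h.1 ▸ ha)
    · exact hs.yQ (h.1 ▸ ha)
  obtain ⟨q, hq, hxq⟩ := nbr_x hT hs.symm
  have hqC : q ∈ C := by
    rcases mem_union.1 (hQ hq) with h | h
    · exact h
    · refine absurd (mem_erase.2 ⟨?_, hxq⟩) (hno x hx q h)
      rw [Sym2.eq_swap]
      exact hne hq
  have hyC : y ∉ C := fun h => disjoint_left.1 hCD h hy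
  refine hT.conn' x ((mem_Y hs).2 (Or.inl rfl)) ⟨Q ∩ C, (Y.erase x) \ (Q ∩ C), ⟨q, mem_inter.2 ⟨hq, hqC⟩⟩,
    ⟨y, ?_⟩, disjoint_sdiff, union_sdiff_of_subset ?_, ?_⟩
  · rw [mem_sdiff, mem_erase, mem_inter]
    exact ⟨⟨hs.ne.symm, (mem_Y hs).2 (Or.inr (Or.inl rfl))⟩, fun h => hyC h.2⟩
  · intro a ha
    rw [mem_inter] at ha
    rw [mem_erase]
    exact ⟨fun h => hs.xQ (h ▸ ha.1), (mem_Y hs).2 (Or.inr (Or.inr (Or.inr ha.1)))⟩
  · intro a ha b hb hab
    rw [mem_inter] at ha
    rw [mem_sdiff, mem_erase, mem_inter] at hb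
    rcases (mem_Y hs).1 hb.1.2 with h | h | h | h
    · exact hb.1.1 h
    · exact hno a ha.2 b (h ▸ hy) (mem_erase.2 ⟨hne ha.1, hab⟩)
    · exact hs.noE b h a ha.1 (by rw [Sym2.eq_swap]; exact hab)
    · have hbC : b ∉ C := fun h2 => hb.2 ⟨h, h2⟩
      exact hno a ha.2 b ((mem_union.1 (hQ h)).resolve_left hbC) (mem_erase.2 ⟨hne ha.1, hab⟩)

/-- The edge `xy` is not needed. -/
theorem tcy_erase {E : Finset (Sym2 V)} {Y : Finset V} {x y : V} {P Q : Finset V}
    (hT : TCY E Y) (hs : Sep E Y x y P Q) : TCY (E.erase s(x, y)) Y := by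
  have gen : ∀ T : Finset V, (Q ⊆ T ∨ P ⊆ T) → Disc T (E.erase s(x, y)) → Disc T E := by
    rintro T hQT ⟨C, D, hC, hD, hCD, hun, hno⟩
    refine ⟨C, D, hC, hD, hCD, hun, fun a ha b hb hab => ?_⟩
    by_cases he : s(a, b) = s(x, y)
    · have main : ∀ C D : Finset V, Disjoint C D → C ∪ D = T → x ∈ C → y ∈ D →
          (∀ a ∈ C, ∀ b ∈ D, s(a, b) ∉ E.erase s(x, y)) → False := by
        intro C D hCD hun hx hy hno
        rcases hQT with hQT | hQT
        · exact erase_aux hT hs (by rw [hun]; exact hQT) hCD hx hy hno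
        · exact erase_aux hT hs.symm (by rw [hun]; exact hQT) hCD hx hy hno
      rw [Sym2.eq_iff] at he
      rcases he with ⟨h1, h2⟩ | ⟨h1, h2⟩
      · exact main C D hCD hun (h1 ▸ ha) (h2 ▸ hb) hno
      · exact main D C hCD.symm (by rw [union_comm]; exact hun) (h2 ▸ hb) (h1 ▸ ha)
          (fun a ha b hb hab => hno b hb a ha (by
            have h9 : s(b, a) = s(a, b) := Sym2.eq_swap
            rw [h9]
            exact hab))
    · exact hno a ha b hb (mem_erase.2 ⟨he, hab⟩)
  refine ⟨hT.three, fun e he => hT.sub e (mem_of_mem_erase he), fun e he => hT.loop e (mem_of_mem_erase he), ?_, ?_⟩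
  · exact fun h => hT.conn (gen Y (Or.inl fun v hv => (mem_Y hs).2 (Or.inr (Or.inr (Or.inr hv)))) h)
  · intro z hz h
    refine hT.conn' z hz (gen _ ?_ h)
    by_cases hzQ : z ∈ Q
    · right
      intro v hv
      exact mem_erase.2 ⟨fun h2 => disjoint_left.1 hs.dis hv (h2 ▸ hzQ), (mem_Y hs).2 (Or.inr (Or.inr (Or.inl hv)))⟩
    · left
      intro v hv
      exact mem_erase.2 ⟨fun h2 => hzQ (h2 ▸ hv), (mem_Y hs).2 (Or.inr (Or.inr (Or.inr hv)))⟩

/-- (S2) A cover of the reduction in which all triangles use the new edge gives a cover of the graph. -/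
theorem cov4_red {E : Finset (Sym2 V)} {Y : Finset V} {x y : V} {P Q : Finset V}
    (hT : TCY E Y) (hs : Sep E Y x y P Q) {F : Finset (Sym2 V)} {A : Finset V} (hF : F ⊆ red E Y x y Q)
    (hnt : NT (F.erase s(x, y))) (hd : ∀ v, dg F v = 0 ∨ dg F v = 2) (hA : ∀ v ∈ A, dg F v = 2) :
    Cov4 E A := by
  by_cases hxy : s(x, y) ∈ F
  · have hE0 : F.erase s(x, y) ⊆ E.erase s(x, y) := by
      intro e he
      rw [mem_erase] at he ⊢
      refine ⟨he.1, ?_⟩
      rcases mem_insert.1 (hF he.2) with h | h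
      · exact absurd h he.1
      · exact (mem_inter.1 h).1
    have hT' := tcy_erase hT hs
    have hs' : Sep (E.erase s(x, y)) Y x y P Q := hs.anti (erase_subset _ _)
    have hdg := dg_erase hxy
    have hx2 : dg F x = 2 := by
      have := dg_pos hxy
      rcases hd x with h | h
      · omega
      · exact h
    have hy2 : dg F y = 2 := by
      have := dg_pos' hxy
      rcases hd y with h | h
      · omega
      · exact h
    have hx1 : dg (F.erase s(x, y)) x = 1 := by
      have := hdg x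
      rw [if_pos (Or.inl rfl)] at this
      omega
    have hy1 : dg (F.erase s(x, y)) y = 1 := by
      have := hdg y
      rw [if_pos (Or.inr rfl)] at this
      omega
    have hv0 : ∀ v, v ≠ x → v ≠ y → dg (F.erase s(x, y)) v = dg F v := by
      intro v h1 h2
      have := hdg v
      rw [if_neg (not_or.2 ⟨h1, h2⟩)] at this
      omega
    obtain ⟨p, hp, hpQ⟩ := H40T.base_path hT' hs'.symm
    obtain ⟨F', h1, h2, h3, h4, h5, h6⟩ := addPath4 hT'.loop p hp (F.erase s(x, y)) hE0 hs.ne
      (notMem_erase _ _) hx1 hy1 (fun v h1 h2 => by rw [hv0 v h1 h2]; exact hd v)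
      (by
        intro r hr hrx hry
        have hrQ : r ∈ Q := by
          rcases hpQ r hr with h | h | h
          · exact absurd h hrx
          · exact absurd h hry
          · exact h
        unfold dg
        rw [card_eq_zero, filter_eq_empty_iff]
        intro e he hre
        rw [mem_erase] at he
        rcases mem_insert.1 (hF he.2) with h | h
        · exact he.1 h
        · exact (mem_sdiff.1 (mem_sym2_iff.1 (mem_inter.1 h).2 r hre)).2 hrQ)
      hnt (fun h => absurd h (notMem_erase _ _))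
    refine ⟨F', h1.trans (erase_subset _ _), h2, h3, fun v hv => ?_⟩
    by_cases hvx : v = x
    · rw [hvx]; exact h4
    · by_cases hvy : v = y
      · rw [hvy]; exact h5
      · exact h6 v (by rw [hv0 v hvx hvy]; exact hA v hv)
  · rw [erase_eq_of_notMem hxy] at hnt
    refine ⟨F, fun e he => ?_, hnt, hd, hA⟩
    rcases mem_insert.1 (hF he) with h | h
    · exact absurd (h ▸ he) hxy
    · exact (mem_inter.1 h).1

theorem cov4_red' {E : Finset (Sym2 V)} {Y : Finset V} {x y : V} {P Q A : Finset V}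
    (hT : TCY E Y) (hs : Sep E Y x y P Q) (h : Cov4 (red E Y x y Q) A) : Cov4 E A := by
  obtain ⟨F, hF, hnt, hd, hA⟩ := h
  exact cov4_red hT hs hF (hnt.mono (erase_subset _ _)) hd hA

/-- The vertices of a reduction with three vertices are covered. -/
theorem cov4_three {E : Finset (Sym2 V)} {Y : Finset V} {x y : V} {P Q : Finset V}
    (hT : TCY E Y) (hs : Sep E Y x y P Q) (h3 : (Y \ Q).card ≤ 3) : Cov4 E (Y \ Q) := by
  obtain ⟨p, hp, hxp⟩ := nbr_x hT hs
  obtain ⟨p', hp', hyp'⟩ := nbr_x hT hs.flip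
  have hpx : p ≠ x := fun h => hs.xP (h ▸ hp)
  have hpy : p ≠ y := fun h => hs.yP (h ▸ hp)
  have hsub : ({x, y, p} : Finset V) ⊆ Y \ Q := by
    intro v hv
    rw [mem_YQ hs]
    simp only [mem_insert, mem_singleton] at hv
    rcases hv with h | h | h
    · exact Or.inl h
    · exact Or.inr (Or.inl h)
    · exact Or.inr (Or.inr (h ▸ hp))
  have hc : ({x, y, p} : Finset V).card = 3 := by
    rw [card_eq_three]
    exact ⟨x, y, p, hs.ne, hpx.symm, hpy.symm, rfl⟩
  have hYQ : ({x, y, p} : Finset V) = Y \ Q := eq_of_subset_of_card_le hsub (by rw [hc]; exact h3)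
  have hpp : p' = p := by
    have h1 : p' ∈ Y \ Q := (mem_YQ hs).2 (Or.inr (Or.inr hp'))
    rw [← hYQ] at h1
    simp only [mem_insert, mem_singleton] at h1
    rcases h1 with h1 | h1 | h1
    · exact absurd (h1 ▸ hp') hs.xP
    · exact absurd (h1 ▸ hp') hs.yP
    · exact h1
  subst hpp
  have e1 : s(x, p') ∉ (∅ : Finset (Sym2 V)) := notMem_empty _
  have e2 : s(y, p') ∉ insert s(x, p') (∅ : Finset (Sym2 V)) := by
    intro h
    rcases mem_insert.1 h with h | h
    · rw [Sym2.eq_iff] at h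
      rcases h with h | h
      · exact hs.ne h.1.symm
      · exact hpy h.1.symm
    · exact notMem_empty _ h
  have e3 : s(x, y) ∉ insert s(y, p') (insert s(x, p') (∅ : Finset (Sym2 V))) := by
    intro h
    rcases mem_insert.1 h with h | h
    · rw [Sym2.eq_iff] at h
      rcases h with h | h
      · exact hs.ne h.1
      · exact hpx h.1.symm
    · rcases mem_insert.1 h with h | h
      · rw [Sym2.eq_iff] at h
        rcases h with h | h
        · exact hpy h.2.symm
        · exact hpx h.1.symm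
      · exact notMem_empty _ h
  have hdg : ∀ v, dg (insert s(x, y) (insert s(y, p') (insert s(x, p') (∅ : Finset (Sym2 V))))) v =
      (if v = x ∨ v = p' then 1 else 0) + (if v = y ∨ v = p' then 1 else 0) + if v = x ∨ v = y then 1 else 0 := by
    intro v
    rw [dg_insert e3, dg_insert e2, dg_insert e1]
    simp [dg]
  have hx := hdg x
  have hy := hdg y
  have hpv := hdg p'
  rw [if_pos (Or.inl rfl), if_neg (not_or.2 ⟨hs.ne, hpx.symm⟩), if_pos (Or.inl rfl)] at hx
  rw [if_neg (not_or.2 ⟨hs.ne.symm, hpy.symm⟩), if_pos (Or.inl rfl), if_pos (Or.inr rfl)] at hy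
  rw [if_pos (Or.inr rfl), if_pos (Or.inr rfl), if_neg (not_or.2 ⟨hpx, hpy⟩)] at hpv
  refine cov4_red hT hs (F := insert s(x, y) (insert s(y, p') (insert s(x, p') ∅))) ?_ ?_ ?_ ?_
  · intro e he
    rcases mem_insert.1 he with h | h
    · rw [h]; exact mem_insert_self _ _
    · rcases mem_insert.1 h with h | h
      · rw [h]
        refine mem_insert_of_mem (mem_inter.2 ⟨hyp', ?_⟩)
        rw [mk_mem_sym2_iff]
        exact ⟨(mem_YQ hs).2 (Or.inr (Or.inl rfl)), (mem_YQ hs).2 (Or.inr (Or.inr hp'))⟩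
      · rcases mem_insert.1 h with h | h
        · rw [h]
          refine mem_insert_of_mem (mem_inter.2 ⟨hxp, ?_⟩)
          rw [mk_mem_sym2_iff]
          exact ⟨(mem_YQ hs).2 (Or.inl rfl), (mem_YQ hs).2 (Or.inr (Or.inr hp'))⟩
        · exact absurd h (notMem_empty _)
  · rw [erase_insert e3]
    have hmem : ∀ a b : V, s(a, b) ∈ insert s(y, p') (insert s(x, p') (∅ : Finset (Sym2 V))) →
        (a = p' ∧ b ≠ p') ∨ (b = p' ∧ a ≠ p') := by
      intro a b h
      rcases mem_insert.1 h with h | h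
      · rw [Sym2.eq_iff] at h
        rcases h with ⟨h1, h2⟩ | ⟨h1, h2⟩
        · exact Or.inr ⟨h2, fun h3 => hpy (h3.symm.trans h1)⟩
        · exact Or.inl ⟨h1, fun h3 => hpy (h3.symm.trans h2)⟩
      · rcases mem_insert.1 h with h | h
        · rw [Sym2.eq_iff] at h
          rcases h with ⟨h1, h2⟩ | ⟨h1, h2⟩
          · exact Or.inr ⟨h2, fun h3 => hpx (h3.symm.trans h1)⟩
          · exact Or.inl ⟨h1, fun h3 => hpx (h3.symm.trans h2)⟩
        · exact absurd h (notMem_empty _)
    intro a b c h1 h2 h3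
    rcases hmem a b h1 with h4 | h4 <;> rcases hmem b c h2 with h5 | h5 <;>
      rcases hmem a c h3 with h6 | h6
    · exact h4.2 h5.1
    · exact h4.2 h5.1
    · exact h6.2 h5.1
    · exact h6.2 h4.1
    · exact h4.2 h6.1
    · exact h5.2 h6.1
    · exact h5.2 h4.1
    · exact h5.2 h4.1
  · intro v
    by_cases h1 : v = x
    · right; rw [h1]; exact hx
    · by_cases h2 : v = y
      · right; rw [h2]; exact hy
      · by_cases h4 : v = p'
        · right; rw [h4]; exact hpv
        · left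
          rw [hdg v, if_neg (not_or.2 ⟨h1, h4⟩), if_neg (not_or.2 ⟨h2, h4⟩), if_neg (not_or.2 ⟨h1, h2⟩)]
  · intro v hv
    rw [← hYQ] at hv
    simp only [mem_insert, mem_singleton] at hv
    rcases hv with h | h | h
    · rw [h]; exact hx
    · rw [h]; exact hy
    · rw [h]; exact hpv

/-- (S4), from (S3) -/
theorem u4_two_of (S3 : ∀ (E : Finset (Sym2 V)) (Y : Finset V) (a b : V), TCY E Y → 4 ≤ Y.card → a ∈ Y →
    b ∈ Y → Cov4 E {a, b}) {E : Finset (Sym2 V)} {Y W : Finset V} (h : TCY E Y)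
    (h2 : (W ∩ Y).card ≤ 2) : ¬ U4 E Y W := by
  intro hU
  induction hU with
  | @base E Y W h4 h1 =>
    apply h1
    obtain ⟨T, hT1, hT2, hT3⟩ := exists_subsuperset_card_eq (n := 2) (s := W ∩ Y) (t := Y)
      inter_subset_right h2 (by omega)
    obtain ⟨a, b, hab, rfl⟩ := card_eq_two.1 hT3
    exact cov4_sub hT1 (S3 E Y a b h h4 (hT2 (by simp)) (hT2 (by simp)))
  | @step E Y W x y P Q hs _ ih =>
    refine ih (tcy_red h hs) (le_trans (card_le_card ?_) h2)
    exact inter_subset_inter_left sdiff_subset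

/-- (S9) -/
theorem u4_cycle {E : Finset (Sym2 V)} {Y W : Finset V} (h : TCY E Y)
    (h2 : ∀ v ∈ Y, dg E v = 2) : ¬ U4 E Y W := by
  intro hU
  induction hU with
  | @base E Y W h4 h1 =>
    refine h1 ⟨E, subset_refl _, ?_, ?_, fun v hv => h2 v (mem_inter.1 hv).2⟩
    · intro a b c hab hbc hac
      have hne : ∀ {u v : V}, s(u, v) ∈ E → u ≠ v := by
        intro u v huv huv'
        exact h.loop _ huv (by rw [Sym2.mk_isDiag_iff]; exact huv')
      have hY : ∀ {u v : V}, s(u, v) ∈ E → u ∈ Y ∧ v ∈ Y := fun {u v} huv =>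
        ⟨h.sub _ huv u (by simp), h.sub _ huv v (by simp)⟩
      have hsw : ∀ {u v : V}, s(u, v) ∈ E → s(v, u) ∈ E := by
        intro u v huv
        rw [Sym2.eq_swap]; exact huv
      have hsub : ({a, b, c} : Finset V) ⊆ Y := by
        intro v hv
        simp only [mem_insert, mem_singleton] at hv
        rcases hv with h5 | h5 | h5
        · rw [h5]; exact (hY hab).1
        · rw [h5]; exact (hY hab).2
        · rw [h5]; exact (hY hbc).2
      refine h.conn ⟨{a, b, c}, Y \ {a, b, c}, ⟨a, by simp⟩, ?_, disjoint_sdiff,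
        union_sdiff_of_subset hsub, ?_⟩
      · rw [← card_pos, card_sdiff_of_subset hsub]
        have := card_le_three (a := a) (b := b) (c := c)
        omega
      · intro u hu w hw huw
        rw [mem_sdiff] at hw
        simp only [mem_insert, mem_singleton, not_or] at hw hu
        rcases hu with h5 | h5 | h5
        · rw [h5] at huw
          have h6 := three_nb (hne hbc) (Ne.symm hw.2.2.1) (Ne.symm hw.2.2.2) hab hac huw
          rw [h2 a (hY hab).1] at h6
          omega
        · rw [h5] at huw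
          have h6 := three_nb (hne hac) (Ne.symm hw.2.1) (Ne.symm hw.2.2.2) (hsw hab) hbc huw
          rw [h2 b (hY hab).2] at h6
          omega
        · rw [h5] at huw
          have h6 := three_nb (hne hab) (Ne.symm hw.2.1) (Ne.symm hw.2.2.1) (hsw hac) (hsw hbc) huw
          rw [h2 c (hY hbc).2] at h6
          omega
    · intro v
      by_cases hv : v ∈ Y
      · exact Or.inr (h2 v hv)
      · left
        unfold dg
        rw [card_eq_zero, filter_eq_empty_iff]
        exact fun e he hve => hv (h.sub e he v hve)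
  | step hs _ ih => exact ih (tcy_red h hs) (dg_red h hs h2)

end H77D4
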