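import Pool.Agent.Lib.LD.Def
import Pool.Agent.Lib.H75U.P2

/-!
# H77D4, file Def: the predicate `U4` (MP_33911d, form D with cycles of length at least 4)
-/

set_option autoImplicit false

namespace H77D4

open Finset H98M LD H75U

variable {V : Type*} [DecidableEq V]

/-- Some iterated reduction of the graph `(E, Y)` with at least four vertices does not cover `W` by disjoint cycles of
length at least `4`. -/
inductive U4 : Finset (Sym2 V) → Finset V → Finset V → Prop
  | base {E : Finset (Sym2 V)} {Y W : Finset V} : 4 ≤ Y.card → ¬ Cov4 E (W ∩ Y) → U4 E Y W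
  | step {E : Finset (Sym2 V)} {Y W : Finset V} {x y : V} {P Q : Finset V} :
      Sep E Y x y P Q → U4 (red E Y x y Q) (Y \ Q) W → U4 E Y W

theorem U4.up {E : Finset (Sym2 V)} {Y W W' : Finset V} (h : U4 E Y W) (hW : W ⊆ W') :
    U4 E Y W' := by
  induction h with
  | base h4 h => exact U4.base h4 fun h1 => h (cov4_sub (inter_subset_inter_right hW) h1)
  | step hs _ ih => exact U4.step hs (ih hW)

theorem U4.anti {E' : Finset (Sym2 V)} {Y W : Finset V} (h : U4 E' Y W) :
    ∀ {E : Finset (Sym2 V)}, E ⊆ E' → U4 E Y W := by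
  induction h with
  | base h4 h => exact fun hE => U4.base h4 fun h1 => h (cov4_edges hE h1)
  | step hs _ ih => exact fun hE => U4.step (hs.anti hE) (ih (red_mono hE))

theorem u4_noSep {E : Finset (Sym2 V)} {Y W : Finset V} (h : ∀ x y P Q, ¬ Sep E Y x y P Q)
    (hU : U4 E Y W) : 4 ≤ Y.card ∧ ¬ Cov4 E (W ∩ Y) := by
  cases hU with
  | base h4 h1 => exact ⟨h4, h1⟩
  | step hs _ => exact absurd hs (h _ _ _ _)

end H77D4
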