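import Pool.Agent.Lib.H98TF.FunR
import Pool.Agent.Lib.H36V.D4R
import Pool.Agent.Lib.H36R.FD4
import Pool.Agent.Lib.H98W.FIN

/-!
# H77D4, file Unc: the uncrossed edges of a simple drawing (MP_33911d, form D4)
-/

set_option autoImplicit false

open H53P SimpleDraw

namespace H77D4

open Finset H98P H98Z H98M H63F H30F H63L H97W H85TF H98TF H36V

/-- The edges which are crossed by no edge of the drawing: every other edge meets them at most in a common
end-vertex. -/
def unc {n : ℕ} (D : SimpleDrawing n) : SimpleGraph (Fin n) where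
  Adj i j := i ≠ j ∧ ∀ k l, k ≠ l → s(i, j) ≠ s(k, l) → ∀ p ∈ D.curve i j ∩ D.curve k l,
    ∃ v, (v = i ∨ v = j) ∧ (v = k ∨ v = l) ∧ p = D.pt v
  symm := ⟨fun i j h => by
    refine ⟨h.1.symm, fun k l hkl hne p hp => ?_⟩
    rw [Sym2.eq_swap] at hne
    rw [D.curve_symm j i] at hp
    obtain ⟨v, h1, h2, h3⟩ := h.2 k l hkl hne p hp
    exact ⟨v, h1.symm, h2, h3⟩⟩
  loopless := ⟨fun i h => h.1 rfl⟩

/-- Uncrossed edges can be added to a plane subdrawing. -/
theorem plane_unc {n : ℕ} (D : SimpleDrawing n) {G R : SimpleGraph (Fin n)} (hR : R ≤ unc D)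
    (hG : D.Plane G) : D.Plane (G ⊔ R) := by
  intro i j k l hij hkl hne p hp
  rw [SimpleGraph.sup_adj] at hij hkl
  rcases hij with hij | hij
  · rcases hkl with hkl | hkl
    · exact hG i j k l hij hkl hne p hp
    · obtain ⟨v, h1, h2, h3⟩ := (hR hkl).2 i j hij.ne (Ne.symm hne) p ⟨hp.2, hp.1⟩
      exact ⟨v, h2, h1, h3⟩
  · exact (hR hij).2 k l (by rcases hkl with h | h <;> exact h.ne) hne p hp

/-- As `layer2`, for a graph which is plane in the drawing. -/
theorem layer2' {n : ℕ} (hn : 3 ≤ n) {G F : Finset (Sym2 (Fin n))}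
    (hGL : G ⊆ LW univ) (hT : TC G) (hF : F ⊆ G)
    (hdeg : ∀ v, dg F v ≤ 2) (hm : 2 * Fintype.card (Fin n) ≤ G.card + 3) :
    ∃ H : SimpleGraph (Fin n), H ≤ gr G ∧ H.Connected ∧
      (∀ v, (H.induce {w | w ≠ v}).Connected) ∧ H.edgeSet.ncard = 2 * n - 3 ∧ gr F ≤ H := by
  have hdiag := not_diag_of_LW hGL
  obtain ⟨H, h1, h2, h3, h4, h5⟩ := H63T.trim_exact G F hdiag hF hdeg hT.1 hT.2
    (by rw [Fintype.card_fin]; omega) hm
  rw [Fintype.card_fin] at h5
  refine ⟨gr H, gr_mono h2, conn_gr hn h3, fun v => ?_, ?_, gr_mono h1⟩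
  · have h6 : (univ.erase v).Nonempty := by
      rw [← card_pos, card_erase_of_mem (mem_univ _), card_univ, Fintype.card_fin]
      omega
    have h7 := induce_connected h6 (h4 v)
    have h8 : {w : Fin n | w ∈ univ.erase v} = {w | w ≠ v} := by
      ext w
      simp
    rw [h8] at h7
    exact h7
  · rw [H85TF.gr_edgeSet fun e he => hdiag e (h2 he), Set.ncard_coe_finset, h5]

/-- FORM D4 with all uncrossed edges: `G` contains them, and `F` is a Hamiltonian cycle which contains them, or `G` is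
3-connected. -/
theorem draw_unc {n : ℕ} (hn : 4 ≤ n) (D : SimpleDrawing n) :
    ∃ G H F : SimpleGraph (Fin n), D.Plane G ∧ unc D ≤ G ∧ F ≤ H ∧ H ≤ G ∧ H.Connected ∧
      (∀ v, (H.induce {w | w ≠ v}).Connected) ∧ H.edgeSet.ncard = 2 * n - 3 ∧
      (∀ v, (F.neighborSet v).ncard = 2) ∧
      (∀ (v : Fin n) (c : F.Walk v v), c.IsCycle → 4 ≤ c.length) ∧
      ((unc D ≤ F ∧ ∃ (v : Fin n) (c : F.Walk v v), c.IsHamiltonianCycle) ∨
        ∀ u v, (G.induce {w | w ≠ u ∧ w ≠ v}).Connected) := by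
  have hU := es_sub (unc D)
  obtain ⟨G, hGL, hGP, hT, hm, h⟩ := H98TF.formD4R (H53P.crossT_symm (H53P.table D))
    (H98W.hd_table (H53P.table D)) (by rw [Fintype.card_fin]; exact hn) hU H36R.L2_4 H36R.L1_4
  have hGL1 : G ∪ es (unc D) ⊆ LW univ := union_subset hGL hU
  have hd := not_diag_of_LW hGL1
  have hT1 : TC (G ∪ es (unc D)) := tc_mono subset_union_left hT
  have hm1 : 2 * Fintype.card (Fin n) ≤ (G ∪ es (unc D)).card + 3 := by
    have := card_le_card (subset_union_left : G ⊆ G ∪ es (unc D))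
    omega
  have hP : D.Plane (gr (G ∪ es (unc D))) := by
    rw [gr_union, gr_es]
    exact plane_unc D (le_refl _) (plane_of D hGP)
  have hUG : unc D ≤ gr (G ∪ es (unc D)) := by
    rw [gr_union, gr_es]
    exact le_sup_right
  rcases h with ⟨G0, hG0, hc, h2⟩ | ⟨hN, F, hF, hnt, -, h2⟩
  · have hF : G0 ∪ es (unc D) ⊆ G ∪ es (unc D) := union_subset_union_left hG0
    have hdF : ∀ e ∈ G0 ∪ es (unc D), ¬ e.IsDiag := fun e he => hd e (hF he)
    obtain ⟨H, g2, g3, g4, g5, g6⟩ := layer2' (by omega) hGL1 hT1 hF (fun v => (h2 v).le) hm1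
    refine ⟨gr (G ∪ es (unc D)), H, gr (G0 ∪ es (unc D)), hP, hUG, g6, g2, g3, g4, g5,
      fun v => (degree_gr hdF v).trans (h2 v), fun v c hcyc =>
      four_le_gr (nt_of_ham (by rw [Fintype.card_fin]; exact hn) hdF hc h2) c hcyc,
      Or.inl ⟨?_, ⟨0, by omega⟩, ham_gr (by omega) hdF hc h2 _⟩⟩
    rw [gr_union, gr_es]
    exact le_sup_right
  · have hdF : ∀ e ∈ F, ¬ e.IsDiag := fun e he => hd e (hF he)
    obtain ⟨H, g2, g3, g4, g5, g6⟩ := layer2' (by omega) hGL1 hT1 hF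
      (fun v => (h2 v (mem_univ v)).le) hm1
    exact ⟨gr (G ∪ es (unc D)), H, gr F, hP, hUG, g6, g2, g3, g4, g5,
      fun v => (degree_gr hdF v).trans (h2 v (mem_univ v)),
      fun v c hcyc => four_le_gr hnt c hcyc, Or.inr (conn3 (by omega) hT1 hN)⟩

end H77D4
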