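import Pool.Agent.Lib.H77D4.S8
import Pool.Agent.Lib.H36R.L2U4
import Pool.Agent.Lib.H30D.X7
import Pool.Agent.Lib.LD59.S8
import Pool.Agent.Lib.LD77.B
import Pool.Agent.Lib.LD9.Cr

/-!
# H77D4, file Facts: the facts for `U4` and `U`, and the closed forms (L1), (L2) (MP_33911d, form D4)
-/

set_option autoImplicit false

namespace H77D4

open Finset H98P H63F H98M H30F H85TF LD H75U

/-- All facts for `U4`. -/
theorem facts4 (V : Type) [DecidableEq V] : H36R.Facts4 V where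
  s1 _ _ _ _ _ _ h hs := LD77.tcy_red h hs
  s4 _ _ _ h h2 := u4_two h h2
  s7u _ _ _ _ _ _ _ hT hu hs hW hU := u4_side hT hu hs hW hU
  s7x _ _ _ _ _ _ _ hT hu hs hW := H30D.x2_side' hT hu hs hW
  s8 _ _ h hs hd := LD59.exists_unc h hs hd
  s9 _ _ _ h h2 := u4_cycle h h2
  xadd _ _ _ _ _ _ _ _ hT hu hs hW hX hB := H30D.x2_add' hT hu hs hW hB hX

/-- All facts for `U`. -/
theorem facts (V : Type) [Fintype V] [DecidableEq V] : H36R.Facts V where
  s1 _ _ _ _ _ _ h hs := LD77.tcy_red h hs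
  s4 _ _ _ h h2 := LD77.u_two h h2
  s7u _ _ _ _ _ _ _ hT hu hs hW hU :=
    H56LD.u_side' (fun h hs => LD77.tcy_red h hs) (fun h hs _ hc => LD.cov_red h hs hc)
      (fun h h2 => LD77.u_two h h2) (fun hT hs h' hx hy hne => H96LD.side hT hs h' hx hy hne) hU hT hs hu
      (disjoint_left.2 fun _ h1 h2 => (mem_sdiff.1 (hW h1)).2 h2)
  s7x _ _ _ _ _ _ _ hT hu hs hW := H30D.x2_side' hT hu hs hW
  s8 _ _ h hs hd := LD59.exists_unc h hs hd
  s9 _ _ _ h h2 := LD77.u_cycle h h2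
  xadd _ _ _ _ _ _ _ _ hT hu hs hW hX hB := H30D.x2_add' hT hu hs hW hB hX

variable {V : Type} [Fintype V] [DecidableEq V]

/-- (L2) -/
theorem L2 (E : Finset (Sym2 V)) (_ : E ⊆ LW univ) (hT : TCY E univ) (M : Finset V) (hM : ¬ Disc M E)
    (hU : U4 E univ M) : AC (Ch fun W : Finset V => (U4 E univ W ∨ X2 E univ W) ∧ W ⊂ M) :=
  H36R.l2u_full4 (facts4 V) hT (subset_univ M) hM hU

/-- (L1) -/
theorem L1 (E : Finset (Sym2 V)) (_ : E ⊆ LW univ) (hT : TCY E univ) (hs : ∃ x y P Q, Sep E univ x y P Q)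
    (h2 : ¬ (∀ v, dg E v = 2)) : AC (Ch fun W : Finset V => X2 E univ W) :=
  H36R.l1u (facts V) hT hs h2

end H77D4
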