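import Pool.Agent.Lib.H77D4.S7
import Pool.Agent.Lib.H96LD.S6

/-!
# H77D4, file S8: (S7) for `U4` without hypotheses (MP_33911d, form D4)
-/

set_option autoImplicit false

namespace H77D4

open Finset H98M LD H75U

variable {V : Type} [DecidableEq V]

/-- (S7) -/
theorem u4_side {E : Finset (Sym2 V)} {Y : Finset V} {x y : V} {P Q W : Finset V} (hT : TCY E Y)
    (hu : Unc E Y x y) (hs : Sep E Y x y P Q) (hW : W ⊆ Y \ Q) (hU : U4 E Y W) :
    U4 (red E Y x y Q) (Y \ Q) W :=
  u4_side' (fun hT hs h' hx hy hne => H96LD.side hT hs h' hx hy hne) hU hT hs hu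
    (disjoint_left.2 fun _ h1 h2 => (mem_sdiff.1 (hW h1)).2 h2)

end H77D4
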